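import Pool.Agent.helper76.UFG.Main

/-!
# Relations between the prime ideals above a Fermat number (MP_37e5fa_nt, MP_a70bdc_nt)

`K = Q(zeta_(2^(m+1)))`, `a = 2^(2^c)`, `F = a^(2^m) + 1 = F_(m+c)`, `f_t = a - z^t` (`t` odd).
-/

set_option autoImplicit false

namespace Pool.Agent.helper39.NR

open Finset NumberField Pool.Agent.UF Pool.Agent.UFG

/-! ## The set-up -/

theorem bz {m : ℕ} {R : Type} [CommRing R] {z : R} {b : R ≃+* R} (hz : z ^ (2 ^ m) = -1) (hb : IsBar z b) :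
    b z = z ^ (2 ^ (m + 1) - 1) := by
  have hpos : 1 ≤ 2 ^ (m + 1) := Nat.one_le_two_pow
  have hz2 : z ^ (2 ^ (m + 1)) = 1 := by
    rw [pow_succ, pow_mul, hz]; ring
  have e1 : z * z ^ (2 ^ (m + 1) - 1) = 1 := by
    rw [← pow_succ', Nat.sub_add_cancel hpos]; exact hz2
  calc b z = b z * (z * z ^ (2 ^ (m + 1) - 1)) := by rw [e1, mul_one]
    _ = (b z * z) * z ^ (2 ^ (m + 1) - 1) := by ring
    _ = z ^ (2 ^ (m + 1) - 1) := by rw [hb.1, one_mul]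

theorem bff {m : ℕ} {R : Type} [CommRing R] {z : R} {b : R ≃+* R} (hz : z ^ (2 ^ m) = -1) (hb : IsBar z b)
    (a u : ℕ) : b (ff a z u) = ff a z ((2 ^ (m + 1) - 1) * u) := by
  unfold ff
  rw [map_sub, map_natCast, map_pow, bz hz hb, pow_mul]

/-- `f_t` and `b f_u` are coprime unless `t + u = 0` modulo `2^(m+1)` -/
theorem cop {m : ℕ} (c : ℕ) {R : Type} [CommRing R] {z : R} {b : R ≃+* R} (hz : z ^ (2 ^ m) = -1) (hb : IsBar z b)
    {t u : ℕ} (ht : Odd t) (hu : Odd u) (h : ¬ 2 ^ (m + 1) ∣ t + u) :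
    IsCoprime (ff (2 ^ (2 ^ c)) z t) (b (ff (2 ^ (2 ^ c)) z u)) := by
  have hpos : 1 ≤ 2 ^ (m + 1) := Nat.one_le_two_pow
  rw [bff hz hb]
  have ho : Odd ((2 ^ (m + 1) - 1) * u) := by
    refine Odd.mul ?_ hu
    rw [pow_succ]
    exact Nat.Even.sub_odd (by have := Nat.one_le_two_pow (n := m); omega) (by simp) odd_one
  refine UF.CPR m c R z hz t _ ht ho ?_
  intro hd
  apply h
  have e1 : (((2 ^ (m + 1) - 1) * u : ℕ) : ℤ) = ((2 : ℤ) ^ (m + 1) - 1) * u := by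
    rw [Nat.cast_mul, Nat.cast_sub hpos]; push_cast; ring
  rw [e1] at hd
  have e2 : (t : ℤ) + u = ((t : ℤ) - ((2 : ℤ) ^ (m + 1) - 1) * u) + (2 : ℤ) ^ (m + 1) * u := by ring
  have e3 : (2 : ℤ) ^ (m + 1) ∣ (t : ℤ) + u := by
    rw [e2]; exact dvd_add hd (dvd_mul_right _ _)
  have e4 : ((2 ^ (m + 1) : ℕ) : ℤ) ∣ ((t + u : ℕ) : ℤ) := by push_cast; exact e3
  exact Int.natCast_dvd_natCast.mp e4

/-- `b f_t = f_u` if `t + u = 0` modulo `2^(m+1)` -/
theorem bfu {m : ℕ} (a : ℕ) {R : Type} [CommRing R] {z : R} {b : R ≃+* R} (hz : z ^ (2 ^ m) = -1) (hb : IsBar z b)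
    {t u : ℕ} (h : 2 ^ (m + 1) ∣ t + u) : b (ff a z t) = ff a z u := by
  have hz2 : z ^ (2 ^ (m + 1)) = 1 := by
    rw [pow_succ, pow_mul, hz]; ring
  unfold ff
  rw [map_sub, map_natCast, map_pow]
  have h1 : z ^ (t + u) = 1 := by
    obtain ⟨k, hk⟩ := h
    rw [hk, pow_mul, hz2, one_pow]
  have h2 : (b z) ^ t * z ^ t = 1 := by rw [← mul_pow, hb.1, one_pow]
  have h3 : (b z) ^ t = z ^ u := by
    calc (b z) ^ t = (b z) ^ t * z ^ (t + u) := by rw [h1, mul_one]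
      _ = ((b z) ^ t * z ^ t) * z ^ u := by rw [pow_add]; ring
      _ = z ^ u := by rw [h2, one_mul]
  rw [h3]

theorem ffne {K : Type} [Field K] [NumberField K] {m : ℕ} (a : ℕ) {z : 𝓞 K} (hz : z ^ (2 ^ m) = -1)
    {t : ℕ} (ht : Odd t) : ff a z t ≠ 0 := by
  intro h0
  have h1 : z ^ t = (a : 𝓞 K) := (sub_eq_zero.mp h0).symm
  have h2 : (z ^ t) ^ (2 ^ m) = -1 := by
    rw [← pow_mul, mul_comm, pow_mul, hz, ht.neg_one_pow]
  rw [h1] at h2
  have h3 : ((a ^ 2 ^ m + 1 : ℕ) : 𝓞 K) = 0 := by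
    push_cast
    rw [h2]
    ring
  exact (Nat.cast_ne_zero.mpr (Nat.succ_ne_zero _)) h3

theorem prodne {K : Type} [Field K] [NumberField K] {m : ℕ} (a : ℕ) {z : 𝓞 K} (hz : z ^ (2 ^ m) = -1)
    {s : Multiset ℕ} (hs : ∀ t ∈ s, Odd t) : (s.map (ff a z)).prod ≠ 0 := by
  rw [Ne, Multiset.prod_eq_zero_iff, Multiset.mem_map]
  rintro ⟨t, ht, h0⟩
  exact ffne a hz (hs t ht) h0

/-! ## Ideals and the automorphism `b` -/

section ideals

variable {R : Type} [CommRing R] (b : R ≃+* R)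

theorem map_span_one (x : R) : (Ideal.span {x}).map b = Ideal.span {b x} := by
  rw [Ideal.map_span, Set.image_singleton]

theorem map_map_bar (hb : ∀ a, b (b a) = a) (I : Ideal R) : (I.map b).map b = I := by
  have h1 : ((b : R →+* R).comp (b : R →+* R)) = RingHom.id R := by
    ext a; exact hb a
  change Ideal.map (b : R →+* R) (Ideal.map (b : R →+* R) I) = I
  rw [Ideal.map_map, h1, Ideal.map_id]

end ideals

end Pool.Agent.helper39.NR
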