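import Pool.Agent.helper39.NR.Basic

set_option autoImplicit false

namespace Pool.Agent.helper39.NR

open Finset NumberField Pool.Agent.UF Pool.Agent.UFG

/-- The relation obtained from the classification of the solutions of `ρ b(ρ) = γ b(γ)`: an ideal `I` dividing
`∏ f_t` whose product with an invariant ideal is principal. -/
theorem relA (m c r : ℕ) (K : Type) [Field K] [NumberField K] [IsCyclotomicExtension {2 ^ (m + 1)} ℚ K] (z : 𝓞 K)
    (b : 𝓞 K ≃+* 𝓞 K) (hz : IsPrimitiveRoot z (2 ^ (m + 1))) (hb : IsBar z b) (hr : 1 ≤ r)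
    (hbd : (32 * r) ^ ((2 ^ (2 ^ c) + 1) ^ (2 * r) + r) < 2 ^ m)
    (s : Multiset ℕ) (hs : Multiset.card s ≤ r) (hodd : ∀ t ∈ s, Odd t) (I A : Ideal (𝓞 K))
    (hI : I ∣ Ideal.span {(s.map (ff (2 ^ (2 ^ c)) z)).prod}) (hA : A ≠ ⊥) (hAb : A.map b = A)
    (hp : (I * A).IsPrincipal) :
    ∃ s' ≤ s, I.map b * Ideal.span {(s'.map (ff (2 ^ (2 ^ c)) z)).prod} =
      I * Ideal.span {b (s'.map (ff (2 ^ (2 ^ c)) z)).prod} := by
  have hcyc : Cyc (2 ^ m) z := UF.BAS m K z hz
  have hf : ∀ t : ℕ, Odd t → ff (2 ^ (2 ^ c)) z t ≠ 0 := fun t ht => ffne _ hcyc.1.1 ht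
  set γ := (s.map (ff (2 ^ (2 ^ c)) z)).prod with hγ
  have hγ0 : γ ≠ 0 := prodne _ hcyc.1.1 hodd
  obtain ⟨Q, hQ⟩ := hI
  obtain ⟨⟨α, hα⟩⟩ := hp
  have hα' : I * A = Ideal.span {α} := hα
  have hI0 : I ≠ ⊥ := by
    rintro rfl
    rw [Ideal.bot_mul, Ideal.span_singleton_eq_bot] at hQ
    exact hγ0 hQ
  have hα0 : α ≠ 0 := by
    rintro rfl
    rw [Ideal.span_singleton_zero, ← Ideal.zero_eq_bot, mul_eq_zero] at hα'
    rcases hα' with h | h
    · exact hI0 h
    · exact hA h
  have hbα : Ideal.span {b α} = I.map b * A := by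
    rw [← map_span_one, ← hα', Ideal.map_mul, hAb]
  -- `α` divides `b α * γ`
  have h1 : Ideal.span {b α * γ} = Ideal.span {α} * (I.map b * Q) := by
    rw [← Ideal.span_singleton_mul_span_singleton, hbα, hQ, ← hα']
    ring
  have h2 : α ∣ b α * γ := by
    rw [← Ideal.span_singleton_le_span_singleton, h1]
    exact Ideal.mul_le_left
  obtain ⟨ρ, hρ⟩ := h2
  have h3 : Ideal.span {ρ} = I.map b * Q := by
    have h4 : Ideal.span {α} * Ideal.span {ρ} = Ideal.span {α} * (I.map b * Q) := by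
      rw [← h1, hρ, Ideal.span_singleton_mul_span_singleton]
    refine mul_left_cancel₀ ?_ h4
    rw [Ideal.zero_eq_bot, Ne, Ideal.span_singleton_eq_bot]
    exact hα0
  have hbα0 : b α ≠ 0 := by
    rw [Ne, map_eq_zero_iff b b.injective]; exact hα0
  have h5 : ρ * b ρ = γ * b γ := by
    have h6 : b (b α * γ) = b (α * ρ) := by rw [hρ]
    rw [map_mul, map_mul, hb.2] at h6
    have h7 : (α * b α) * (ρ * b ρ) = (α * b α) * (γ * b γ) := by
      calc (α * b α) * (ρ * b ρ) = (α * ρ) * (b α * b ρ) := by ring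
        _ = (b α * γ) * (α * b γ) := by rw [← hρ, ← h6]
        _ = _ := by ring
    exact mul_left_cancel₀ (mul_ne_zero hα0 hbα0) h7
  have h8 : Ideal.span {ρ} * I = I.map b * Ideal.span {γ} := by
    rw [h3, hQ]; ring
  have sup := UF.SUP UF.CST UF.TBD
  have pol := UF.POL UF.LIN
  have co1 := UF.CO1 sup UF.PIG UF.SPL pol
  have co2 := UF.CO2 UF.BAS UF.PRM co1
  obtain ⟨s₁, s₂, h12, hass⟩ := UF.CLS (𝓞 K) b hb.2 (ff (2 ^ (2 ^ c)) z) hf r
    (co2 m c r K z hz hr hbd b hb) s hs hodd ρ h5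
  refine ⟨s₂, by rw [← h12]; exact Multiset.le_add_left _ _, ?_⟩
  have h9 : Ideal.span {ρ} = Ideal.span {(s₁.map (ff (2 ^ (2 ^ c)) z)).prod} *
      Ideal.span {b (s₂.map (ff (2 ^ (2 ^ c)) z)).prod} := by
    rw [Ideal.span_singleton_mul_span_singleton, Ideal.span_singleton_eq_span_singleton,
      map_multiset_prod, Multiset.map_map]
    exact hass
  have h10 : Ideal.span {γ} =
      Ideal.span {(s₁.map (ff (2 ^ (2 ^ c)) z)).prod} * Ideal.span {(s₂.map (ff (2 ^ (2 ^ c)) z)).prod} := by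
    rw [Ideal.span_singleton_mul_span_singleton, ← Multiset.prod_add, ← Multiset.map_add, h12]
  rw [h9, h10] at h8
  have hne : Ideal.span {(s₁.map (ff (2 ^ (2 ^ c)) z)).prod} ≠ 0 := by
    rw [Ideal.zero_eq_bot, Ne, Ideal.span_singleton_eq_bot]
    exact prodne _ hcyc.1.1 (fun t ht => hodd t (by rw [← h12]; exact Multiset.mem_add.mpr (Or.inl ht)))
  apply mul_left_cancel₀ hne
  calc Ideal.span {(s₁.map (ff (2 ^ (2 ^ c)) z)).prod} *
        (I.map b * Ideal.span {(s₂.map (ff (2 ^ (2 ^ c)) z)).prod})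
      = I.map b * (Ideal.span {(s₁.map (ff (2 ^ (2 ^ c)) z)).prod} *
        Ideal.span {(s₂.map (ff (2 ^ (2 ^ c)) z)).prod}) := by ring
    _ = Ideal.span {(s₁.map (ff (2 ^ (2 ^ c)) z)).prod} *
        Ideal.span {b (s₂.map (ff (2 ^ (2 ^ c)) z)).prod} * I := h8.symm
    _ = _ := by ring

/-- Cancelling the pairs `t, -t` and using coprimality: `I` is the product of the ideals of some `f_t` and an
invariant ideal. -/
theorem relB (m c : ℕ) (K : Type) [Field K] [NumberField K] (z : 𝓞 K)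
    (b : 𝓞 K ≃+* 𝓞 K) (hz : z ^ (2 ^ m) = -1) (hb : IsBar z b) (hm : 1 ≤ m) (I : Ideal (𝓞 K)) :
    ∀ (n : ℕ) (s' : Multiset ℕ), Multiset.card s' ≤ n → (∀ t ∈ s', Odd t) →
      I.map b * Ideal.span {(s'.map (ff (2 ^ (2 ^ c)) z)).prod} =
        I * Ideal.span {b (s'.map (ff (2 ^ (2 ^ c)) z)).prod} →
      ∃ (t : Multiset ℕ) (J : Ideal (𝓞 K)), (∀ i ∈ t, Odd i) ∧
        I = Ideal.span {(t.map (ff (2 ^ (2 ^ c)) z)).prod} * J ∧ J.map b = J := by
  intro n
  induction n with
  | zero =>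
    intro s' hs' hodd h
    have h0 : s' = 0 := Multiset.card_eq_zero.mp (Nat.le_zero.mp hs')
    refine ⟨0, I, by simp, by simp, ?_⟩
    rw [h0] at h
    simpa using h
  | succ n ih =>
    intro s' hs' hodd h
    by_cases hex : ∃ i ∈ s', ∃ j ∈ s', 2 ^ (m + 1) ∣ i + j
    · obtain ⟨i, hi, j, hj, hij⟩ := hex
      have hne : i ≠ j := by
        rintro rfl
        have h4 : 4 ∣ 2 ^ (m + 1) := by
          obtain ⟨k, rfl⟩ := Nat.exists_eq_add_of_le hm
          exact ⟨2 ^ k, by ring⟩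
        have h5 := h4.trans hij
        have h6 := hodd i hi
        obtain ⟨k, hk⟩ := h6
        omega
      obtain ⟨s1, h1⟩ := Multiset.exists_cons_of_mem hi
      have hj1 : j ∈ s1 := by
        rw [h1, Multiset.mem_cons] at hj
        rcases hj with h2 | h2
        · exact absurd h2.symm hne
        · exact h2
      obtain ⟨s2, h2⟩ := Multiset.exists_cons_of_mem hj1
      have hc : Multiset.card s2 ≤ n := by
        rw [h1, h2, Multiset.card_cons, Multiset.card_cons] at hs'
        omega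
      have ho2 : ∀ t ∈ s2, Odd t := fun t ht => hodd t (by
        rw [h1, h2]; exact Multiset.mem_cons_of_mem (Multiset.mem_cons_of_mem ht))
      refine ih s2 hc ho2 ?_
      have hbi : b (ff (2 ^ (2 ^ c)) z i) = ff (2 ^ (2 ^ c)) z j := bfu _ hz hb hij
      have hbj : b (ff (2 ^ (2 ^ c)) z j) = ff (2 ^ (2 ^ c)) z i := bfu _ hz hb (by rw [add_comm j i]; exact hij)
      have e1 : (s'.map (ff (2 ^ (2 ^ c)) z)).prod = (ff (2 ^ (2 ^ c)) z i * ff (2 ^ (2 ^ c)) z j) *
          (s2.map (ff (2 ^ (2 ^ c)) z)).prod := by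
        rw [h1, h2, Multiset.map_cons, Multiset.map_cons, Multiset.prod_cons, Multiset.prod_cons]
        ring
      have e2 : b (s'.map (ff (2 ^ (2 ^ c)) z)).prod = (ff (2 ^ (2 ^ c)) z i * ff (2 ^ (2 ^ c)) z j) *
          b (s2.map (ff (2 ^ (2 ^ c)) z)).prod := by
        rw [e1, map_mul, map_mul, hbi, hbj]
        ring
      have hne0 : Ideal.span {ff (2 ^ (2 ^ c)) z i * ff (2 ^ (2 ^ c)) z j} ≠ 0 := by
        rw [Ideal.zero_eq_bot, Ne, Ideal.span_singleton_eq_bot]
        exact mul_ne_zero (ffne _ hz (hodd i hi)) (ffne _ hz (hodd j hj))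
      generalize ff (2 ^ (2 ^ c)) z i * ff (2 ^ (2 ^ c)) z j = w at e1 e2 hne0
      rw [e2, e1, ← Ideal.span_singleton_mul_span_singleton, ← Ideal.span_singleton_mul_span_singleton] at h
      apply mul_left_cancel₀ hne0
      calc _ = I.map b * (Ideal.span {w} * Ideal.span {(s2.map (ff (2 ^ (2 ^ c)) z)).prod}) := by ring
        _ = _ := by rw [h]; ring
    · have hcop : IsCoprime (s'.map (ff (2 ^ (2 ^ c)) z)).prod (b (s'.map (ff (2 ^ (2 ^ c)) z)).prod) := by
        rw [map_multiset_prod, Multiset.map_map]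
        have key : ∀ (u : Multiset ℕ), (∀ t ∈ u, t ∈ s') → ∀ (v : Multiset ℕ), (∀ t ∈ v, t ∈ s') →
            IsCoprime (u.map (ff (2 ^ (2 ^ c)) z)).prod (v.map (⇑b ∘ ff (2 ^ (2 ^ c)) z)).prod := by
          intro u hu v hv
          induction u using Multiset.induction_on with
          | empty => simpa using isCoprime_one_left
          | cons x u ihu =>
            rw [Multiset.map_cons, Multiset.prod_cons]
            refine IsCoprime.mul_left ?_ (ihu (fun t ht => hu t (Multiset.mem_cons_of_mem ht)))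
            have hx : x ∈ s' := hu x (Multiset.mem_cons_self x u)
            clear ihu
            induction v using Multiset.induction_on with
            | empty => simpa using isCoprime_one_right
            | cons y v ihv =>
              rw [Multiset.map_cons, Multiset.prod_cons]
              refine IsCoprime.mul_right ?_ (ihv (fun t ht => hv t (Multiset.mem_cons_of_mem ht)))
              have hy : y ∈ s' := hv y (Multiset.mem_cons_self y v)
              refine cop c hz hb (hodd x hx) (hodd y hy) ?_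
              intro hd
              exact hex ⟨x, hx, y, hy, hd⟩
        exact key s' (fun t ht => ht) s' (fun t ht => ht)
      have hcopI : IsCoprime (Ideal.span {(s'.map (ff (2 ^ (2 ^ c)) z)).prod})
          (Ideal.span {b (s'.map (ff (2 ^ (2 ^ c)) z)).prod}) :=
        (Ideal.isCoprime_span_singleton_iff _ _).mpr hcop
      have hdvd : Ideal.span {(s'.map (ff (2 ^ (2 ^ c)) z)).prod} ∣ I := by
        refine hcopI.dvd_of_dvd_mul_right ?_
        rw [← h]
        exact dvd_mul_left _ _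
      obtain ⟨J, hJ⟩ := hdvd
      refine ⟨s', J, hodd, hJ, ?_⟩
      have hbI : I.map b = Ideal.span {b (s'.map (ff (2 ^ (2 ^ c)) z)).prod} * J.map b := by
        rw [hJ, Ideal.map_mul, map_span_one]
      have hne1 : Ideal.span {(s'.map (ff (2 ^ (2 ^ c)) z)).prod} ≠ 0 := by
        rw [Ideal.zero_eq_bot, Ne, Ideal.span_singleton_eq_bot]
        exact prodne _ hz hodd
      have hne2 : Ideal.span {b (s'.map (ff (2 ^ (2 ^ c)) z)).prod} ≠ 0 := by
        rw [Ideal.zero_eq_bot, Ne, Ideal.span_singleton_eq_bot, map_eq_zero_iff b b.injective]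
        exact prodne _ hz hodd
      apply mul_left_cancel₀ (mul_ne_zero hne1 hne2)
      calc _ = (Ideal.span {b (s'.map (ff (2 ^ (2 ^ c)) z)).prod} * J.map b) *
            Ideal.span {(s'.map (ff (2 ^ (2 ^ c)) z)).prod} := by ring
        _ = I * Ideal.span {b (s'.map (ff (2 ^ (2 ^ c)) z)).prod} := by rw [← hbI, h]
        _ = _ := by
          conv_lhs => rw [hJ]
          ring

end Pool.Agent.helper39.NR
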