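import Pool.Agent.helper39.NR.Main

set_option autoImplicit false

namespace Pool.Agent.helper39.NR

open Finset NumberField Pool.Agent.UF Pool.Agent.UFG

/-! ## The converse -/

theorem conv_thm (K : Type) [Field K] [NumberField K] (b : 𝓞 K ≃+* 𝓞 K) (hb : ∀ a, b (b a) = a) (I J : Ideal (𝓞 K))
    (x : 𝓞 K) (hI : I ≠ ⊥) (h : I = Ideal.span {x} * (J * J.map b)) :
    ∃ A : Ideal (𝓞 K), A ≠ ⊥ ∧ A.map b = A ∧ (I * A).IsPrincipal := by
  have hJ0 : J ≠ ⊥ := by
    rintro rfl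
    apply hI
    rw [h, Ideal.bot_mul, Ideal.mul_bot]
  have h1 : J ∣ Ideal.span {((Ideal.absNorm J : ℕ) : 𝓞 K)} :=
    Ideal.dvd_span_singleton.mpr (Ideal.absNorm_mem J)
  obtain ⟨B, hB⟩ := h1
  have hN : ((Ideal.absNorm J : ℕ) : 𝓞 K) ≠ 0 := by
    rw [Ne, Nat.cast_eq_zero, Ideal.absNorm_eq_zero_iff]
    exact hJ0
  have hB0 : B ≠ ⊥ := by
    rintro rfl
    rw [Ideal.mul_bot, Ideal.span_singleton_eq_bot] at hB
    exact hN hB
  have hBb0 : B.map b ≠ ⊥ := by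
    intro h
    apply hB0
    rw [← map_map_bar b hb B, h, Ideal.map_bot]
  have h2 : Ideal.span {((Ideal.absNorm J : ℕ) : 𝓞 K)} = J.map b * B.map b := by
    rw [← Ideal.map_mul, ← hB, map_span_one, map_natCast]
  refine ⟨B * B.map b, mul_ne_zero (a := B) (b := B.map b) hB0 hBb0, ?_, ?_⟩
  · rw [Ideal.map_mul, map_map_bar b hb, mul_comm]
  · have h3 : I * (B * B.map b) = Ideal.span {x * (((Ideal.absNorm J : ℕ) : 𝓞 K) * ((Ideal.absNorm J : ℕ) : 𝓞 K))} := by
      rw [← Ideal.span_singleton_mul_span_singleton, ← Ideal.span_singleton_mul_span_singleton]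
      conv_rhs => rw [h2]
      conv_rhs => rw [← h2]
      calc I * (B * B.map b) = Ideal.span {x} * ((J * B) * (J.map b * B.map b)) := by rw [h]; ring
        _ = _ := by rw [← hB, ← h2]
    exact ⟨⟨_, h3⟩⟩

/-! ## Norms -/

theorem norm_prod (m a : ℕ) (K : Type) [Field K] [NumberField K] (z : 𝓞 K) (hz : Cyc (2 ^ m) z) (t : Multiset ℕ)
    (ht : ∀ i ∈ t, Odd i) :
    Ideal.absNorm (Ideal.span {(t.map (ff a z)).prod}) = (a ^ (2 ^ m) + 1) ^ Multiset.card t := by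
  induction t using Multiset.induction_on with
  | empty => simp
  | cons x t ih =>
    rw [Multiset.map_cons, Multiset.prod_cons, ← Ideal.span_singleton_mul_span_singleton, map_mul,
      ih (fun i hi => ht i (Multiset.mem_cons_of_mem hi)), Multiset.card_cons, pow_succ,
      UF.ANR UF.QUK UF.QUO m a x K z hz (ht x (Multiset.mem_cons_self x t))]
    ring

theorem norm_split (m a : ℕ) (K : Type) [Field K] [NumberField K] (z : 𝓞 K) (hz : Cyc (2 ^ m) z) (b : 𝓞 K ≃+* 𝓞 K)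
    (I J : Ideal (𝓞 K)) (t : Multiset ℕ)
    (ht : ∀ i ∈ t, Odd i) (h : I = Ideal.span {(t.map (ff a z)).prod} * (J * J.map b)) :
    ∃ x : ℕ, Ideal.absNorm I = x ^ 2 ∨ Ideal.absNorm I = (a ^ (2 ^ m) + 1) * x ^ 2 := by
  have h1 : Ideal.absNorm I = (a ^ (2 ^ m) + 1) ^ Multiset.card t * (Ideal.absNorm J) ^ 2 := by
    rw [h, map_mul, map_mul, norm_prod m a K z hz t ht, absNorm_map K b J]
    ring
  rcases Nat.even_or_odd' (Multiset.card t) with ⟨k, hk | hk⟩
  · refine ⟨(a ^ (2 ^ m) + 1) ^ k * Ideal.absNorm J, Or.inl ?_⟩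
    rw [h1, hk]
    ring
  · refine ⟨(a ^ (2 ^ m) + 1) ^ k * Ideal.absNorm J, Or.inr ?_⟩
    rw [h1, hk]
    ring

theorem card_le_omega (M : Multiset ℕ) (hM : ∀ x ∈ M, 2 ≤ x) : Multiset.card M ≤ M.prod.primeFactorsList.length := by
  induction M using Multiset.induction_on with
  | empty => simp
  | cons x M ih =>
    have h1 := ih (fun y hy => hM y (Multiset.mem_cons_of_mem hy))
    have hx : 2 ≤ x := hM x (Multiset.mem_cons_self x M)
    have hM0 : M.prod ≠ 0 := by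
      rw [Ne, Multiset.prod_eq_zero_iff]
      intro h0
      have := hM 0 (Multiset.mem_cons_of_mem h0)
      omega
    rw [Multiset.prod_cons, Multiset.card_cons]
    have h2 := (Nat.perm_primeFactorsList_mul (by omega : x ≠ 0) hM0).length_eq
    rw [List.length_append] at h2
    have h3 : x.primeFactorsList ≠ [] := by
      intro h
      rw [Nat.primeFactorsList_eq_nil] at h
      omega
    have h4 := List.length_pos_iff.mpr h3
    omega

theorem mem_prime {R : Type} [CommRing R] (P : Ideal R) (hP : P.IsPrime) (n : ℕ) (hn : n ≠ 0) (h : (n : R) ∈ P) :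
    ∃ p : ℕ, p.Prime ∧ p ∣ n ∧ (p : R) ∈ P := by
  induction n using Nat.recOnMul with
  | zero => exact absurd rfl hn
  | one => 
    exfalso
    rw [Nat.cast_one] at h
    exact hP.ne_top ((Ideal.eq_top_iff_one P).mpr h)
  | prime p hp => exact ⟨p, hp, dvd_rfl, h⟩
  | mul a c iha ihc =>
    rw [Nat.cast_mul] at h
    rcases hP.mem_or_mem h with h1 | h1
    · obtain ⟨p, hp, hd, hm⟩ := iha (left_ne_zero_of_mul hn) h1
      exact ⟨p, hp, hd.mul_right _, hm⟩
    · obtain ⟨p, hp, hd, hm⟩ := ihc (right_ne_zero_of_mul hn) h1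
      exact ⟨p, hp, hd.mul_left _, hm⟩

theorem norm_thm (m c r : ℕ) (K : Type) [Field K] [NumberField K] [IsCyclotomicExtension {2 ^ (m + 1)} ℚ K]
    (z : 𝓞 K) (b : 𝓞 K ≃+* 𝓞 K) (hz : IsPrimitiveRoot z (2 ^ (m + 1))) (hb : b z * z = 1) (hr : 1 ≤ r)
    (hbd : (32 * r) ^ ((2 ^ (2 ^ c) + 1) ^ (2 * r) + r) < 2 ^ m)
    (I : Ideal (𝓞 K)) (hI0 : I ≠ ⊥) (hlen : (Ideal.absNorm I).primeFactorsList.length ≤ r)
    (hp : ∀ p : ℕ, p.Prime → p ∣ Ideal.absNorm I → p ∣ (2 ^ (2 ^ c)) ^ (2 ^ m) + 1) (ht : Triv b I) :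
    ∃ x : ℕ, Ideal.absNorm I = x ^ 2 ∨ Ideal.absNorm I = ((2 ^ (2 ^ c)) ^ (2 ^ m) + 1) * x ^ 2 := by
  classical
  set S := UniqueFactorizationMonoid.normalizedFactors I with hS
  have hprod : S.prod = I := Ideal.prod_normalizedFactors_eq_self hI0
  have hn0 : Ideal.absNorm I ≠ 0 := by
    rw [Ne, Ideal.absNorm_eq_zero_iff]; exact hI0
  have hprime : ∀ P ∈ S, P.IsPrime ∧ P ≠ ⊥ ∧ P ∣ I := by
    intro P hP
    have h1 := UniqueFactorizationMonoid.prime_of_normalized_factor P hP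
    exact ⟨Ideal.isPrime_of_prime h1, h1.ne_zero, UniqueFactorizationMonoid.dvd_of_mem_normalizedFactors hP⟩
  have hcard : Multiset.card S ≤ r := by
    refine le_trans ?_ hlen
    have h1 := card_le_omega (S.map Ideal.absNorm) (by
      intro x hx
      rw [Multiset.mem_map] at hx
      obtain ⟨P, hP, rfl⟩ := hx
      obtain ⟨h1, h2, -⟩ := hprime P hP
      have h3 : Ideal.absNorm P ≠ 1 := by
        rw [Ne, Ideal.absNorm_eq_one_iff]; exact h1.ne_top
      have h4 : Ideal.absNorm P ≠ 0 := by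
        rw [Ne, Ideal.absNorm_eq_zero_iff]; exact h2
      omega)
    rw [Multiset.card_map] at h1
    have h2 : (S.map Ideal.absNorm).prod = Ideal.absNorm I := by
      rw [← hprod, map_multiset_prod]
    rw [h2] at h1
    exact h1
  have hSp : ∀ P ∈ S, P.IsPrime ∧ ((((2 ^ (2 ^ c)) ^ (2 ^ m) + 1 : ℕ)) : 𝓞 K) ∈ P := by
    intro P hP
    obtain ⟨h1, h2, h3⟩ := hprime P hP
    refine ⟨h1, ?_⟩
    have h4 : ((Ideal.absNorm I : ℕ) : 𝓞 K) ∈ P := (Ideal.le_of_dvd h3) (Ideal.absNorm_mem I)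
    obtain ⟨p, hp1, hp2, hp3⟩ := mem_prime P h1 _ hn0 h4
    obtain ⟨k, hk⟩ := hp p hp1 hp2
    rw [hk, Nat.cast_mul]
    exact P.mul_mem_right _ hp3
  rw [← hprod] at ht
  obtain ⟨t, J, h1, h2⟩ := structure_thm m c r K z b hz hb hr hbd S hcard hSp ht
  rw [hprod] at h2
  exact norm_split m _ K z (UF.BAS m K z hz) b I J t h1 h2

/-! ## Powers of one prime ideal -/

theorem pow_thm (m c r : ℕ) (K : Type) [Field K] [NumberField K] [IsCyclotomicExtension {2 ^ (m + 1)} ℚ K]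
    (z : 𝓞 K) (b : 𝓞 K ≃+* 𝓞 K) (hz : IsPrimitiveRoot z (2 ^ (m + 1))) (hb : b z * z = 1) (hr : 1 ≤ r)
    (hbd : (32 * r) ^ ((2 ^ (2 ^ c) + 1) ^ (2 * r) + r) < 2 ^ m)
    (P : Ideal (𝓞 K)) (hP : P.IsPrime) (hF : ((((2 ^ (2 ^ c)) ^ (2 ^ m) + 1 : ℕ)) : 𝓞 K) ∈ P) (j : ℕ) (hj : 1 ≤ j)
    (hjr : j ≤ r) (ht : Triv b (P ^ j)) : ∃ i : ℕ, Odd i ∧ P = Ideal.span {ff (2 ^ (2 ^ c)) z i} := by
  have hbar := isBar_of hz hb
  have hcyc : Cyc (2 ^ m) z := UF.BAS m K z hz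
  have hm := m_pos hr hbd
  have hP0 : P ≠ ⊥ := by
    rintro rfl
    rw [Ideal.mem_bot, Nat.cast_eq_zero] at hF
    omega
  have hPprime : Prime P := Ideal.prime_of_isPrime hP0 hP
  have hmax : P.IsMaximal := hP.isMaximal hP0
  obtain ⟨t₀, ht₀, hmem⟩ := prime_mem m c K z hz P hP hF
  have hcop := prime_cop m c K z b hcyc.1.1 hbar hm P hP hP0 t₀ ht₀ hmem
  have hSprod : (Multiset.replicate j P).prod = P ^ j := Multiset.prod_replicate j P
  obtain ⟨t, J, h1, h2⟩ := structure_thm m c r K z b hz hb hr hbd (Multiset.replicate j P)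
    (by rw [Multiset.card_replicate]; exact hjr) (by
      intro Q hQ
      rw [Multiset.eq_of_mem_replicate hQ]
      exact ⟨hP, hF⟩) (by rw [hSprod]; exact ht)
  rw [hSprod] at h2
  have hJtop : J = ⊤ := by
    by_contra hne
    obtain ⟨Q, hQ, hJQ⟩ := Ideal.exists_le_maximal J hne
    have hJP : J ∣ P ^ j := by rw [h2]; exact (dvd_mul_right J _).mul_left _
    have h3 : Q ∣ P ^ j := (Ideal.dvd_iff_le.mpr hJQ).trans hJP
    have hPQ : P ≤ Q := hQ.isPrime.le_of_pow_le (Ideal.le_of_dvd h3)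
    have hPQ' : P = Q := hmax.eq_of_le hQ.ne_top hPQ
    have hJb : J.map b ≤ P.map b := by
      rw [hPQ']; exact Ideal.map_mono hJQ
    have h4 : P ^ j ≤ P.map b := by
      rw [h2]
      exact Ideal.mul_le_right.trans (Ideal.mul_le_right.trans hJb)
    have hPb : (P.map b).IsPrime := Ideal.map_isPrime_of_equiv b
    have h5 : P ≤ P.map b := hPb.le_of_pow_le h4
    rw [Ideal.isCoprime_iff_sup_eq, sup_eq_right.mpr h5] at hcop
    exact hPb.ne_top hcop
  rw [hJtop, Ideal.map_top, Ideal.top_mul, Ideal.mul_top] at h2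
  have htne : t ≠ 0 := by
    rintro rfl
    rw [Multiset.map_zero, Multiset.prod_zero, Ideal.span_singleton_one] at h2
    have h3 : P ^ j ≤ P := Ideal.pow_le_self (by omega)
    rw [h2, top_le_iff] at h3
    exact hP.ne_top h3
  obtain ⟨i, hi⟩ := Multiset.exists_mem_of_ne_zero htne
  have hdvd : Ideal.span {ff (2 ^ (2 ^ c)) z i} ∣ P ^ j := by
    obtain ⟨t1, rfl⟩ := Multiset.exists_cons_of_mem hi
    rw [h2, Multiset.map_cons, Multiset.prod_cons, ← Ideal.span_singleton_mul_span_singleton]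
    exact dvd_mul_right _ _
  obtain ⟨l, hl, hass⟩ := (dvd_prime_pow hPprime j).mp hdvd
  rw [associated_iff_eq] at hass
  have hnorm : (Ideal.absNorm P) ^ l = fer (m + c) := by
    rw [← map_pow, ← hass, UF.ANR UF.QUK UF.QUO m _ i K z hcyc (h1 i hi), fer, ← pow_mul, ← pow_add, add_comm c m]
  have hl1 : l = 1 := by
    have h3 : l ≠ 0 := by
      rintro rfl
      rw [pow_zero, fer] at hnorm
      have : 1 ≤ 2 ^ 2 ^ (m + c) := Nat.one_le_two_pow
      omega
    by_contra h4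
    exact UF.NPP (m + c) 1 l (Ideal.absNorm P) one_pos (by omega) (by rw [pow_one]; exact hnorm)
  refine ⟨i, h1 i hi, ?_⟩
  rw [hass, hl1, pow_one]

end Pool.Agent.helper39.NR
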