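import Pool.Agent.helper39.NR.Core
import Pool.Agent.helper70.UF.ANR

set_option autoImplicit false

namespace Pool.Agent.helper39.NR

open Finset NumberField Pool.Agent.UF Pool.Agent.UFG

/-! ## Invariant ideals -/

/-- a prime ideal containing some `f_t` is different from its conjugate, even coprime to it -/
theorem prime_cop (m c : ℕ) (K : Type) [Field K] [NumberField K] (z : 𝓞 K)
    (b : 𝓞 K ≃+* 𝓞 K) (hz : z ^ (2 ^ m) = -1) (hb : IsBar z b) (hm : 1 ≤ m) (P : Ideal (𝓞 K)) (hP : P.IsPrime)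
    (hP0 : P ≠ ⊥) (t : ℕ) (ht : Odd t) (hmem : ff (2 ^ (2 ^ c)) z t ∈ P) :
    IsCoprime P (P.map b) := by
  have hPb : (P.map b).IsPrime := Ideal.map_isPrime_of_equiv b
  have hPb0 : P.map b ≠ ⊥ := by
    intro h
    apply hP0
    rw [← map_map_bar b hb.2 P, h, Ideal.map_bot]
  have hmax : P.IsMaximal := hP.isMaximal hP0
  have hmaxb : (P.map b).IsMaximal := hPb.isMaximal hPb0
  rw [Ideal.isCoprime_iff_sup_eq]
  by_contra hne
  have h1 : P = P ⊔ P.map b := hmax.eq_of_le hne le_sup_left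
  have h2 : P.map b = P ⊔ P.map b := hmaxb.eq_of_le hne le_sup_right
  have h3 : P.map b = P := h2.trans h1.symm
  have h4 : b (ff (2 ^ (2 ^ c)) z t) ∈ P := by
    rw [← h3]
    exact Ideal.mem_map_of_mem b hmem
  have h5 : ¬ 2 ^ (m + 1) ∣ t + t := by
    intro hd
    have h4 : 4 ∣ 2 ^ (m + 1) := by
      obtain ⟨k, rfl⟩ := Nat.exists_eq_add_of_le hm
      exact ⟨2 ^ k, by ring⟩
    have h5 := h4.trans hd
    obtain ⟨k, hk⟩ := ht
    omega
  obtain ⟨x, y, hxy⟩ := cop c hz hb ht ht h5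
  apply hP.ne_top
  rw [Ideal.eq_top_iff_one, ← hxy]
  exact P.add_mem (P.mul_mem_left x hmem) (P.mul_mem_left y h4)

/-- An invariant ideal dividing a product of numbers `f_t` is `J * b(J)`. -/
theorem inv_split (m c : ℕ) (K : Type) [Field K] [NumberField K] (z : 𝓞 K)
    (b : 𝓞 K ≃+* 𝓞 K) (hz : z ^ (2 ^ m) = -1) (hb : IsBar z b) (hm : 1 ≤ m) (s : Multiset ℕ) (hs : ∀ t ∈ s, Odd t) :
    ∀ (n : ℕ) (J : Ideal (𝓞 K)), Ideal.absNorm J ≤ n → J ∣ Ideal.span {(s.map (ff (2 ^ (2 ^ c)) z)).prod} →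
      J.map b = J → ∃ J₁ : Ideal (𝓞 K), J = J₁ * J₁.map b := by
  intro n
  induction n with
  | zero =>
    intro J hJ hd _
    exfalso
    have h0 : J = ⊥ := by
      rw [← Ideal.absNorm_eq_zero_iff]; omega
    rw [h0] at hd
    obtain ⟨Q, hQ⟩ := hd
    rw [Ideal.bot_mul, Ideal.span_singleton_eq_bot] at hQ
    exact prodne _ hz hs hQ
  | succ n ih =>
    intro J hJ hd hinv
    have hJ0 : J ≠ ⊥ := by
      rintro rfl
      obtain ⟨Q, hQ⟩ := hd
      rw [Ideal.bot_mul, Ideal.span_singleton_eq_bot] at hQ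
      exact prodne _ hz hs hQ
    by_cases hJ1 : J = ⊤
    · refine ⟨⊤, ?_⟩
      rw [hJ1, Ideal.map_top, Ideal.top_mul]
    · obtain ⟨P, hPmax, hPJ⟩ := Ideal.exists_le_maximal J hJ1
      have hP : P.IsPrime := hPmax.isPrime
      have hP0 : P ≠ ⊥ := by
        rintro rfl
        exact hJ0 (le_bot_iff.mp hPJ)
      -- `P` contains some `f_t`
      have hmem : (s.map (ff (2 ^ (2 ^ c)) z)).prod ∈ P := by
        have h1 : Ideal.span {(s.map (ff (2 ^ (2 ^ c)) z)).prod} ≤ P := (Ideal.le_of_dvd hd).trans hPJ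
        exact h1 (Ideal.mem_span_singleton_self _)
      obtain ⟨x, hx, hxP⟩ := hP.multiset_prod_mem_iff_exists_mem _ |>.mp hmem
      rw [Multiset.mem_map] at hx
      obtain ⟨t, ht, rfl⟩ := hx
      have hcop := prime_cop m c K z b hz hb hm P hP hP0 t (hs t ht) hxP
      have hPd : P ∣ J := Ideal.dvd_iff_le.mpr hPJ
      have hPbd : P.map b ∣ J := by
        rw [Ideal.dvd_iff_le, ← hinv]
        exact Ideal.map_mono hPJ
      obtain ⟨J', hJ'⟩ := hcop.mul_dvd hPd hPbd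
      have hPb0 : P.map b ≠ ⊥ := by
        intro h
        apply hP0
        rw [← map_map_bar b hb.2 P, h, Ideal.map_bot]
      have hJ'inv : J'.map b = J' := by
        have h1 : J.map b = (P * P.map b) * J'.map b := by
          rw [hJ', Ideal.map_mul, Ideal.map_mul, map_map_bar b hb.2]
          ring
        rw [hinv] at h1
        refine mul_left_cancel₀ (mul_ne_zero (a := P) (b := P.map b) hP0 hPb0) ?_
        rw [← h1, ← hJ']
      have hJ'd : J' ∣ Ideal.span {(s.map (ff (2 ^ (2 ^ c)) z)).prod} :=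
        (Dvd.intro_left _ hJ'.symm).trans hd
      have hlt : Ideal.absNorm J' ≤ n := by
        have h1 : Ideal.absNorm J = Ideal.absNorm P * Ideal.absNorm (P.map b) * Ideal.absNorm J' := by
          rw [hJ', map_mul, map_mul]
        have h2 : Ideal.absNorm P ≠ 1 := by
          rw [Ne, Ideal.absNorm_eq_one_iff]; exact hP.ne_top
        have h3 : Ideal.absNorm P ≠ 0 := by
          rw [Ne, Ideal.absNorm_eq_zero_iff]; exact hP0
        have h4 : Ideal.absNorm (P.map b) ≠ 0 := by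
          rw [Ne, Ideal.absNorm_eq_zero_iff]; exact hPb0
        have h5 : Ideal.absNorm J ≠ 0 := by
          rw [Ne, Ideal.absNorm_eq_zero_iff]; exact hJ0
        have h6 : Ideal.absNorm J' ≠ 0 := by
          intro h; rw [h, mul_zero] at h1; exact h5 h1
        have h7 : 2 ≤ Ideal.absNorm P := by omega
        have h8 : 1 ≤ Ideal.absNorm (P.map b) := by omega
        have h9 : 2 * Ideal.absNorm J' ≤ Ideal.absNorm J := by
          rw [h1]
          exact Nat.mul_le_mul_right _ (by nlinarith)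
        omega
      obtain ⟨J₁, hJ₁⟩ := ih J' hlt hJ'd hJ'inv
      refine ⟨P * J₁, ?_⟩
      rw [Ideal.map_mul, hJ']
      conv_lhs => rw [hJ₁]
      ring

/-- an automorphism preserves the norm of an ideal -/
theorem absNorm_map (K : Type) [Field K] [NumberField K] (b : 𝓞 K ≃+* 𝓞 K) (J : Ideal (𝓞 K)) :
    Ideal.absNorm (J.map b) = Ideal.absNorm J := by
  rw [Ideal.absNorm_apply, Ideal.absNorm_apply, Submodule.cardQuot_apply, Submodule.cardQuot_apply]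
  exact (Nat.card_congr (Ideal.quotientEquiv J (J.map b) b rfl).toEquiv).symm

/-! ## Prime ideals containing `F` -/

theorem prime_mem (m c : ℕ) (K : Type) [Field K] [NumberField K] (z : 𝓞 K)
    (hz : IsPrimitiveRoot z (2 ^ (m + 1))) (P : Ideal (𝓞 K)) (hP : P.IsPrime)
    (hF : ((((2 ^ (2 ^ c)) ^ (2 ^ m) + 1 : ℕ)) : 𝓞 K) ∈ P) : ∃ t : ℕ, Odd t ∧ ff (2 ^ (2 ^ c)) z t ∈ P := by
  have h1 := UFG.FCT m (2 ^ (2 ^ c)) (𝓞 K) z hz
  have h2 : ((((2 ^ (2 ^ c)) ^ (2 ^ m) + 1 : ℕ)) : 𝓞 K) = (((2 ^ (2 ^ c) : ℕ)) : 𝓞 K) ^ 2 ^ m + 1 := by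
    push_cast; ring
  rw [h2, ← h1] at hF
  obtain ⟨t, ht, htP⟩ := hP.prod_mem_iff.mp hF
  rw [Finset.mem_filter] at ht
  exact ⟨t, ht.2, htP⟩

theorem prod_dvd (m c : ℕ) (K : Type) [Field K] [NumberField K] (z : 𝓞 K)
    (hz : IsPrimitiveRoot z (2 ^ (m + 1))) (S : Multiset (Ideal (𝓞 K)))
    (hS : ∀ P ∈ S, P.IsPrime ∧ ((((2 ^ (2 ^ c)) ^ (2 ^ m) + 1 : ℕ)) : 𝓞 K) ∈ P) :
    ∃ s : Multiset ℕ, Multiset.card s = Multiset.card S ∧ (∀ t ∈ s, Odd t) ∧
      S.prod ∣ Ideal.span {(s.map (ff (2 ^ (2 ^ c)) z)).prod} := by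
  induction S using Multiset.induction_on with
  | empty => exact ⟨0, by simp, by simp, by simp⟩
  | cons P S ih =>
    obtain ⟨s, h1, h2, h3⟩ := ih (fun Q hQ => hS Q (Multiset.mem_cons_of_mem hQ))
    obtain ⟨hP, hF⟩ := hS P (Multiset.mem_cons_self P S)
    obtain ⟨t, ht, htP⟩ := prime_mem m c K z hz P hP hF
    refine ⟨t ::ₘ s, by simp [h1], ?_, ?_⟩
    · intro u hu
      rw [Multiset.mem_cons] at hu
      rcases hu with rfl | hu
      · exact ht
      · exact h2 u hu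
    · rw [Multiset.prod_cons, Multiset.map_cons, Multiset.prod_cons, ← Ideal.span_singleton_mul_span_singleton]
      exact mul_dvd_mul (Ideal.dvd_span_singleton.mpr htP) h3

/-! ## The structure theorem -/

/-- `I` is trivial: it becomes principal in a cyclotomic field, or its product with an invariant ideal is principal -/
def Triv {K : Type} [Field K] [NumberField K] (b : 𝓞 K ≃+* 𝓞 K) (I : Ideal (𝓞 K)) : Prop :=
  BecomesPrincipal I ∨ ∃ A : Ideal (𝓞 K), A ≠ ⊥ ∧ A.map b = A ∧ (I * A).IsPrincipal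

theorem isBar_of {m : ℕ} {K : Type} [Field K] [NumberField K] [IsCyclotomicExtension {2 ^ (m + 1)} ℚ K] {z : 𝓞 K}
    (hz : IsPrimitiveRoot z (2 ^ (m + 1))) {b : 𝓞 K ≃+* 𝓞 K} (hb : b z * z = 1) : IsBar z b := by
  refine ⟨hb, fun a => ?_⟩
  have h1 : b (b z) * b z = 1 := by rw [← map_mul, hb, map_one]
  have h2 : b (b z) = z := by
    calc b (b z) = b (b z) * (b z * z) := by rw [hb, mul_one]
      _ = z := by rw [← mul_assoc, h1, one_mul]
  exact (UFG.BSN _ K z (by positivity) hz).ext ((b : 𝓞 K →+* 𝓞 K).comp (b : 𝓞 K →+* 𝓞 K)) (RingHom.id _) h2 a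

theorem m_pos {m c r : ℕ} (hr : 1 ≤ r) (hbd : (32 * r) ^ ((2 ^ (2 ^ c) + 1) ^ (2 * r) + r) < 2 ^ m) : 1 ≤ m := by
  by_contra h
  have h0 : m = 0 := by omega
  subst h0
  have : 1 ≤ (32 * r) ^ ((2 ^ (2 ^ c) + 1) ^ (2 * r) + r) := Nat.one_le_pow _ _ (by omega)
  simp at hbd
  omega

theorem structure_dvd (m c r : ℕ) (K : Type) [Field K] [NumberField K] [IsCyclotomicExtension {2 ^ (m + 1)} ℚ K]
    (z : 𝓞 K) (b : 𝓞 K ≃+* 𝓞 K) (hz : IsPrimitiveRoot z (2 ^ (m + 1))) (hb : b z * z = 1) (hr : 1 ≤ r)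
    (hbd : (32 * r) ^ ((2 ^ (2 ^ c) + 1) ^ (2 * r) + r) < 2 ^ m)
    (s : Multiset ℕ) (hs4 : Multiset.card s ≤ r) (hs2 : ∀ t ∈ s, Odd t) (I : Ideal (𝓞 K))
    (hs3 : I ∣ Ideal.span {(s.map (ff (2 ^ (2 ^ c)) z)).prod}) (ht : Triv b I) :
    ∃ (t : Multiset ℕ) (J : Ideal (𝓞 K)), (∀ i ∈ t, Odd i) ∧
      I = Ideal.span {(t.map (ff (2 ^ (2 ^ c)) z)).prod} * (J * J.map b) := by
  have hbar := isBar_of hz hb
  have hcyc : Cyc (2 ^ m) z := UF.BAS m K z hz
  have hm := m_pos hr hbd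
  have hrel : ∃ s' ≤ s, I.map b * Ideal.span {(s'.map (ff (2 ^ (2 ^ c)) z)).prod} =
      I * Ideal.span {b (s'.map (ff (2 ^ (2 ^ c)) z)).prod} := by
    rcases ht with h | ⟨A, hA, hAb, hp⟩
    · exact UFG.main.2.2.1 m c r K z b hz hb hr hbd s hs4 hs2 _ hs3 h
    · exact relA m c r K z b hz hbar hr hbd s hs4 hs2 _ A hs3 hA hAb hp
  obtain ⟨s', hs', h1⟩ := hrel
  obtain ⟨t, J, h2, h3, h4⟩ := relB m c K z b hcyc.1.1 hbar hm I (Multiset.card s') s' le_rfl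
    (fun t ht => hs2 t (Multiset.mem_of_le hs' ht)) h1
  have h5 : J ∣ Ideal.span {(s.map (ff (2 ^ (2 ^ c)) z)).prod} := (Dvd.intro_left _ h3.symm).trans hs3
  obtain ⟨J₁, h6⟩ := inv_split m c K z b hcyc.1.1 hbar hm s hs2 _ J le_rfl h5 h4
  exact ⟨t, J₁, h2, by rw [← h6, ← h3]⟩

theorem structure_thm (m c r : ℕ) (K : Type) [Field K] [NumberField K] [IsCyclotomicExtension {2 ^ (m + 1)} ℚ K]
    (z : 𝓞 K) (b : 𝓞 K ≃+* 𝓞 K) (hz : IsPrimitiveRoot z (2 ^ (m + 1))) (hb : b z * z = 1) (hr : 1 ≤ r)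
    (hbd : (32 * r) ^ ((2 ^ (2 ^ c) + 1) ^ (2 * r) + r) < 2 ^ m)
    (S : Multiset (Ideal (𝓞 K))) (hS : Multiset.card S ≤ r)
    (hSp : ∀ P ∈ S, P.IsPrime ∧ ((((2 ^ (2 ^ c)) ^ (2 ^ m) + 1 : ℕ)) : 𝓞 K) ∈ P) (ht : Triv b S.prod) :
    ∃ (t : Multiset ℕ) (J : Ideal (𝓞 K)), (∀ i ∈ t, Odd i) ∧
      S.prod = Ideal.span {(t.map (ff (2 ^ (2 ^ c)) z)).prod} * (J * J.map b) := by
  obtain ⟨s, hs1, hs2, hs3⟩ := prod_dvd m c K z hz S hSp
  exact structure_dvd m c r K z b hz hb hr hbd s (by rw [hs1]; exact hS) hs2 S.prod hs3 ht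

end Pool.Agent.helper39.NR
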