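import Pool.Agent.helper39.NR.Final

set_option autoImplicit false

namespace Pool.Agent.helper39.NR

open Finset NumberField Pool.Agent.UF Pool.Agent.UFG

theorem ff_two {K : Type} [Field K] (z : 𝓞 K) (i : ℕ) : ff (2 ^ (2 ^ 0)) z i = 2 - z ^ i := by
  simp [ff]

theorem ff_two' {K : Type} [Field K] (z : 𝓞 K) : ff (2 ^ (2 ^ 0)) z = fun i => 2 - z ^ i := by
  funext i
  exact ff_two z i

theorem span_prod {K : Type} [Field K] (z : 𝓞 K) (t : Multiset ℕ) :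
    Ideal.span {(t.map (ff (2 ^ (2 ^ 0)) z)).prod} = (t.map fun i => Ideal.span {2 - z ^ i}).prod := by
  induction t using Multiset.induction_on with
  | empty => simp
  | cons x t ih =>
    rw [Multiset.map_cons, Multiset.prod_cons, ← Ideal.span_singleton_mul_span_singleton, ih, Multiset.map_cons,
      Multiset.prod_cons, ff_two]

theorem bound_eq (r : ℕ) : (32 * r) ^ ((2 ^ (2 ^ 0) + 1) ^ (2 * r) + r) = (32 * r) ^ (9 ^ r + r) := by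
  have : (2 ^ (2 ^ 0) + 1) ^ (2 * r) = 9 ^ r := by
    rw [pow_mul]; norm_num
  rw [this]

theorem fer_eq (m : ℕ) : (2 ^ (2 ^ 0)) ^ (2 ^ m) + 1 = 2 ^ 2 ^ m + 1 := by norm_num

/-- `I * A` is principal for some ideal `A ≠ 0` with `b(A) = A`. -/
def MT {K : Type} [Field K] [NumberField K] (b : 𝓞 K ≃+* 𝓞 K) (I : Ideal (𝓞 K)) : Prop :=
  ∃ A : Ideal (𝓞 K), A ≠ ⊥ ∧ A.map b = A ∧ (I * A).IsPrincipal

/-- `I` is a product of at most `r` prime ideals containing `F`, or contains a product of at most `r` numbers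
`2 - z^t`, `t` odd. -/
def Short {K : Type} [Field K] [NumberField K] (F r : ℕ) (z : 𝓞 K) (I : Ideal (𝓞 K)) : Prop :=
  (∃ S : Multiset (Ideal (𝓞 K)), Multiset.card S ≤ r ∧ (∀ P ∈ S, P.IsPrime ∧ (F : 𝓞 K) ∈ P) ∧ I = S.prod) ∨
    ∃ s : Multiset ℕ, Multiset.card s ≤ r ∧ (∀ t ∈ s, Odd t) ∧ (s.map fun t => 2 - z ^ t).prod ∈ I

/-- The conjugation and the relations between the ideals which are short for `r`. -/
def Rel (F N : ℕ) (K : Type) [Field K] [NumberField K] (z : 𝓞 K) : Prop :=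
  ∃ b : 𝓞 K ≃+* 𝓞 K, b z * z = 1 ∧ ∀ r : ℕ, 1 ≤ r → (32 * r) ^ (9 ^ r + r) < N →
    (∀ I : Ideal (𝓞 K), Short F r z I →
      (MT b I ↔ ∃ (t : Multiset ℕ) (J : Ideal (𝓞 K)), (∀ i ∈ t, Odd i) ∧
        I = (t.map fun i => Ideal.span {2 - z ^ i}).prod * (J * J.map b)) ∧
      (BecomesPrincipal I → MT b I)) ∧
    (Nat.Prime F ↔ ∃ P : Ideal (𝓞 K), P.IsPrime ∧ (F : 𝓞 K) ∈ P ∧ ∃ j : ℕ, 1 ≤ j ∧ j ≤ r ∧ MT b (P ^ j)) ∧
    (∀ n : ℕ, n ≠ 0 → n.primeFactorsList.length ≤ r → (∀ p : ℕ, p.Prime → p ∣ n → p ∣ F) →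
      (∃ x : 𝓞 K, (Algebra.norm ℤ x).natAbs = n) → ∃ k : ℕ, n = k ^ 2 ∨ n = F * k ^ 2)

theorem main (m : ℕ) (K : Type) [Field K] [NumberField K] [IsCyclotomicExtension {2 ^ (m + 1)} ℚ K] (z : 𝓞 K)
    (hz : IsPrimitiveRoot z (2 ^ (m + 1))) : Rel (2 ^ 2 ^ m + 1) (2 ^ m) K z := by
  have hcyc : Cyc (2 ^ m) z := UF.BAS m K z hz
  obtain ⟨b, hbar, -⟩ := UF.BIN (2 ^ m) (𝓞 K) z Nat.one_le_two_pow hcyc
  have hb : b z * z = 1 := hbar.1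
  refine ⟨b, hb, ?_⟩
  intro r hr hbd0
  have hbd : (32 * r) ^ ((2 ^ (2 ^ 0) + 1) ^ (2 * r) + r) < 2 ^ m := by
    rw [bound_eq r]; exact hbd0
  have hsh : ∀ I : Ideal (𝓞 K), Short (2 ^ 2 ^ m + 1) r z I →
      ∃ s : Multiset ℕ, Multiset.card s ≤ r ∧ (∀ t ∈ s, Odd t) ∧
        I ∣ Ideal.span {(s.map (ff (2 ^ (2 ^ 0)) z)).prod} := by
    rintro I (⟨S, hS, hSp, rfl⟩ | ⟨s, hs1, hs2, hs3⟩)
    · obtain ⟨s, h1, h2, h3⟩ := prod_dvd m 0 K z hz S (by rw [fer_eq]; exact hSp)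
      exact ⟨s, by rw [h1]; exact hS, h2, h3⟩
    · exact ⟨s, hs1, hs2, by rw [ff_two']; exact Ideal.dvd_span_singleton.mpr hs3⟩
  have hI0 : ∀ I : Ideal (𝓞 K), Short (2 ^ 2 ^ m + 1) r z I → I ≠ ⊥ := by
    intro I hI h0
    obtain ⟨s, -, h2, h3⟩ := hsh I hI
    rw [h0] at h3
    obtain ⟨Q, hQ⟩ := h3
    rw [Ideal.bot_mul, Ideal.span_singleton_eq_bot] at hQ
    exact prodne _ hcyc.1.1 h2 hQ
  have hst : ∀ I : Ideal (𝓞 K), Short (2 ^ 2 ^ m + 1) r z I → Triv b I →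
      ∃ (t : Multiset ℕ) (J : Ideal (𝓞 K)), (∀ i ∈ t, Odd i) ∧
        I = (t.map fun i => Ideal.span {2 - z ^ i}).prod * (J * J.map b) := by
    intro I hI ht
    obtain ⟨s, hs1, hs2, hs3⟩ := hsh I hI
    obtain ⟨t, J, h1, h2⟩ := structure_dvd m 0 r K z b hz hb hr hbd s hs1 hs2 I hs3 ht
    exact ⟨t, J, h1, by rw [h2, span_prod]⟩
  have hback : ∀ I : Ideal (𝓞 K), Short (2 ^ 2 ^ m + 1) r z I →
      (∃ (t : Multiset ℕ) (J : Ideal (𝓞 K)), (∀ i ∈ t, Odd i) ∧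
        I = (t.map fun i => Ideal.span {2 - z ^ i}).prod * (J * J.map b)) → MT b I := by
    rintro I hI ⟨t, J, h1, h2⟩
    have hS0 := hI0 I hI
    rw [← span_prod] at h2
    exact conv_thm K b hbar.2 I J _ hS0 h2
  have htfae := (UFG.main.2.1 m K z hz)
  refine ⟨?_, ?_, ?_⟩
  · intro I hI
    refine ⟨⟨fun h => hst I hI (Or.inr h), hback I hI⟩, fun h => hback I hI (hst I hI (Or.inl h))⟩
  · constructor
    · intro hF
      have h1 : ∃ P : Ideal (𝓞 K), P.IsPrime ∧ ((fer m : ℕ) : 𝓞 K) ∈ P ∧ P.IsPrincipal :=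
        (htfae.out 0 3).mp hF
      obtain ⟨P, hP, hFP, hpr⟩ := h1
      refine ⟨P, hP, hFP, 1, le_rfl, hr, ⊤, top_ne_bot, Ideal.map_top _, ?_⟩
      rw [pow_one, Ideal.mul_top]
      exact hpr
    · rintro ⟨P, hP, hFP, j, hj1, hj2, hmt⟩
      obtain ⟨i, -, hi⟩ := pow_thm m 0 r K z b hz hb hr hbd P hP (by rw [fer_eq]; exact hFP) j hj1 hj2 (Or.inr hmt)
      have h1 : ∃ P : Ideal (𝓞 K), P.IsPrime ∧ ((fer m : ℕ) : 𝓞 K) ∈ P ∧ P.IsPrincipal :=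
        ⟨P, hP, hFP, ⟨⟨_, hi⟩⟩⟩
      exact (htfae.out 0 3).mpr h1
  · rintro n hn hlen hp ⟨x, hx⟩
    have h1 : Ideal.absNorm (Ideal.span {x}) = n := by
      rw [Ideal.absNorm_span_singleton, hx]
    have hI0 : Ideal.span {x} ≠ ⊥ := by
      rw [Ne, ← Ideal.absNorm_eq_zero_iff, h1]
      exact hn
    have h2 := norm_thm m 0 r K z b hz hb hr hbd (Ideal.span {x}) hI0 (by rw [h1]; exact hlen)
      (by rw [h1, fer_eq]; exact hp) (Or.inr ⟨⊤, top_ne_bot, Ideal.map_top _, by rw [Ideal.mul_top]; exact ⟨⟨x, rfl⟩⟩⟩)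
    rw [h1, fer_eq] at h2
    exact h2

end Pool.Agent.helper39.NR
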